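import Pool.Agent.Lib.MP_35fb4b_lc.Final

/-!
# Compressible orbit-universal subshifts (MP_35fb4b_lc)

Let `Γ` be a countable group and let `Δ` be a subgroup of `Γ` that contains a free group of rank 2.
There is a compressible, orbit-universal subshift of `2^Γ` with a `Δ`-fixed point if and only if `Δ` is not co-amenable in `Γ`.
-/

set_option autoImplicit false

namespace Pool.Agent.Results.MP_35fb4b_lc.CompressibleUniversal

open Pool.Agent.Lib.MP_35fb4b_lc

/-- The shift action of `Γ` on `2^Γ`. -/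
def shift {Γ : Type} [Group Γ] (γ : Γ) (x : Γ → Bool) : Γ → Bool := fun g => x (γ⁻¹ * g)

/-- Subshifts of `2^Γ`: nonempty closed shift-invariant sets. -/
def IsSubshift {Γ : Type} [Group Γ] (K : Set (Γ → Bool)) : Prop :=
  K.Nonempty ∧ IsClosed K ∧ ∀ γ : Γ, ∀ x ∈ K, shift γ x ∈ K

/-- The orbit equivalence relation `E_K` of the shift action on `K`. -/
def OrbRel {Γ : Type} [Group Γ] (K : Set (Γ → Bool)) (x y : K) : Prop :=
  ∃ γ : Γ, (y : Γ → Bool) = shift γ (x : Γ → Bool)

/-- Countable Borel equivalence relations. -/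
def IsCBER {X : Type} [MeasurableSpace X] (E : X → X → Prop) : Prop :=
  Equivalence E ∧ MeasurableSet {p : X × X | E p.1 p.2} ∧ ∀ x, {y | E x y}.Countable

/-- Borel reducibility. -/
def BorelReducible {X Y : Type} [MeasurableSpace X] [MeasurableSpace Y] (E : X → X → Prop)
    (F : Y → Y → Prop) : Prop :=
  ∃ f : X → Y, Measurable f ∧ ∀ x x', E x x' ↔ F (f x) (f x')

/-- Universal countable Borel equivalence relations. -/
def IsUniversalCBER {Y : Type} [MeasurableSpace Y] (F : Y → Y → Prop) : Prop :=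
  IsCBER F ∧ ∀ (X : Type) [MeasurableSpace X] [StandardBorelSpace X] (E : X → X → Prop),
    IsCBER E → BorelReducible E F

/-- Compressible equivalence relations. -/
def IsCompressible {X : Type} [MeasurableSpace X] (E : X → X → Prop) : Prop :=
  ∃ f : X → X, Measurable f ∧ Function.Injective f ∧ ∀ x, f '' {y | E x y} ⊂ {y | E x y}

/-- `Δ` is co-amenable in `Γ`: there is a `Γ`-invariant finitely additive probability measure
defined on all subsets of `Γ ⧸ Δ`. -/
def CoAmenable {Γ : Type} [Group Γ] (Δ : Subgroup Γ) : Prop :=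
  ∃ m : Set (Γ ⧸ Δ) → ℝ, (∀ A, 0 ≤ m A) ∧ m Set.univ = 1 ∧
    (∀ A B, Disjoint A B → m (A ∪ B) = m A + m B) ∧
      ∀ (γ : Γ) (A : Set (Γ ⧸ Δ)), m ((fun x => γ • x) '' A) = m A

section transfer
variable {Γ : Type} [Group Γ]

/-- passage between the two conventions for the shift -/
def flip (z : Γ → Bool) : Γ → Bool := fun g => z g⁻¹

theorem flip_flip (z : Γ → Bool) : flip (flip z) = z := by
  funext g
  simp [flip]

theorem shift_flip (γ : Γ) (z : Γ → Bool) : shift γ (flip z) = flip (act γ z) := by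
  funext g
  simp [shift, flip, act, mul_inv_rev]

theorem act_flip (γ : Γ) (z : Γ → Bool) : act γ (flip z) = flip (shift γ z) := by
  funext g
  simp [shift, flip, act, mul_inv_rev]

theorem flip_continuous : Continuous (flip : (Γ → Bool) → (Γ → Bool)) :=
  continuous_pi fun g => continuous_apply g⁻¹

theorem flip_measurable : Measurable (flip : (Γ → Bool) → (Γ → Bool)) :=
  measurable_pi_lambda _ fun g => measurable_pi_apply g⁻¹

theorem orbRel_iff {K : Set (Γ → Bool)} (x y : K) :
    OrbRel K x y ↔ SameOrb (flip (y : Γ → Bool)) (flip (x : Γ → Bool)) := by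
  constructor
  · rintro ⟨γ, h⟩
    exact ⟨γ, by rw [h, act_flip]⟩
  · rintro ⟨γ, h⟩
    refine ⟨γ, ?_⟩
    rw [act_flip] at h
    rw [← flip_flip (y : Γ → Bool), h, flip_flip]

theorem shift_one (x : Γ → Bool) : shift 1 x = x := by
  funext g
  simp [shift]

theorem shift_mul (γ δ : Γ) (x : Γ → Bool) : shift (γ * δ) x = shift γ (shift δ x) := by
  funext g
  simp [shift, mul_assoc]

theorem shift_measurable (γ : Γ) : Measurable (shift γ : (Γ → Bool) → (Γ → Bool)) :=
  measurable_pi_lambda _ fun g => measurable_pi_apply (γ⁻¹ * g)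

theorem orbRel_equivalence (K : Set (Γ → Bool)) : Equivalence (OrbRel K) where
  refl x := ⟨1, (shift_one _).symm⟩
  symm := by
    rintro x y ⟨γ, h⟩
    exact ⟨γ⁻¹, by rw [h, ← shift_mul, inv_mul_cancel, shift_one]⟩
  trans := by
    rintro x y z ⟨γ, h⟩ ⟨δ, h'⟩
    exact ⟨δ * γ, by rw [h', h, shift_mul]⟩

theorem orbRel_cber [Countable Γ] (K : Set (Γ → Bool)) : IsCBER (OrbRel K) := by
  refine ⟨orbRel_equivalence K, ?_, fun x => ?_⟩
  · have h : {p : K × K | OrbRel K p.1 p.2} =
        ⋃ γ : Γ, {p : K × K | (p.2 : Γ → Bool) = shift γ (p.1 : Γ → Bool)} := by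
      ext p
      simp [OrbRel]
    rw [h]
    refine MeasurableSet.iUnion fun γ => ?_
    exact measurableSet_eq_fun (measurable_subtype_coe.comp measurable_snd)
      ((shift_measurable γ).comp (measurable_subtype_coe.comp measurable_fst))
  · have h : {y | OrbRel K x y} ⊆
        ⋃ γ : Γ, {y : K | (y : Γ → Bool) = shift γ (x : Γ → Bool)} := by
      rintro y ⟨γ, hy⟩
      exact Set.mem_iUnion_of_mem γ hy
    refine Set.Countable.mono h (Set.countable_iUnion fun γ => ?_)
    exact Set.Subsingleton.countable fun a ha b hb => Subtype.ext (ha.trans hb.symm)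

end transfer

theorem result {Γ : Type} [Group Γ] [Countable Γ] (Δ : Subgroup Γ)
    (hΔ : ∃ φ : FreeGroup (Fin 2) →* Δ, Function.Injective φ) :
    (∃ K : Set (Γ → Bool), IsSubshift K ∧ IsCompressible (OrbRel K) ∧
      IsUniversalCBER (OrbRel K) ∧ ∃ z ∈ K, ∀ δ ∈ Δ, shift δ z = z) ↔ ¬ CoAmenable Δ := by
  constructor
  · rintro ⟨K, ⟨-, hcl, hinv⟩, ⟨f, hf, hfi, hcomp⟩, -, z, hz, hfix⟩
    -- transfer to the internal convention
    obtain ⟨K', hK'⟩ : ∃ K' : Set (Γ → Bool), K' = flip ⁻¹' K := ⟨_, rfl⟩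
    have hmem : ∀ x, x ∈ K' ↔ flip x ∈ K := by
      intro x
      rw [hK']
      rfl
    have hmem' : ∀ x : K, flip (x : Γ → Bool) ∈ K' := fun x => by
      rw [hmem, flip_flip]
      exact x.2
    let f' : K' → K' := fun x => ⟨flip (f ⟨flip x.1, (hmem x.1).1 x.2⟩ : Γ → Bool), hmem' _⟩
    have hf'm : Measurable f' := by
      apply Measurable.subtype_mk
      refine flip_measurable.comp (measurable_subtype_coe.comp (hf.comp ?_))
      exact (flip_measurable.comp measurable_subtype_coe).subtype_mk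
    have hf'i : Function.Injective f' := by
      intro x y hxy
      have h1 : flip (f ⟨flip x.1, (hmem x.1).1 x.2⟩ : Γ → Bool) =
          flip (f ⟨flip y.1, (hmem y.1).1 y.2⟩ : Γ → Bool) := congrArg Subtype.val hxy
      have h2 := congrArg flip h1
      rw [flip_flip, flip_flip] at h2
      have h3 := hfi (Subtype.ext h2)
      have h4 : flip x.1 = flip y.1 := congrArg Subtype.val h3
      have h5 := congrArg flip h4
      rw [flip_flip, flip_flip] at h5
      exact Subtype.ext h5
    refine converse_internal Δ (K := K') (by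
      rw [hK']
      exact hcl.preimage flip_continuous) (fun γ x hx => by
        rw [hmem] at hx ⊢
        rw [← shift_flip]
        exact hinv γ _ hx) f' hf'm hf'i ?_ ?_ (flip z) (hmem' ⟨z, hz⟩) (fun δ hδ => by
          rw [act_flip, hfix δ hδ])
    · intro x
      have h1 : f ⟨flip x.1, (hmem x.1).1 x.2⟩ ∈
          {y | OrbRel K ⟨flip x.1, (hmem x.1).1 x.2⟩ y} :=
        (hcomp _).1 ⟨_, (orbRel_equivalence K).refl _, rfl⟩
      have h2 := (orbRel_iff _ _).1 h1
      rw [flip_flip] at h2
      exact h2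
    · intro x
      obtain ⟨y, hy1, hy2⟩ := Set.exists_of_ssubset (hcomp ⟨flip x.1, (hmem x.1).1 x.2⟩)
      refine ⟨⟨flip y.1, hmem' y⟩, ?_, ?_⟩
      · have h2 := (orbRel_iff _ _).1 hy1
        rw [flip_flip] at h2
        exact h2
      · rintro ⟨w, hw⟩
        apply hy2
        have h3 : flip (f ⟨flip w.1, (hmem w.1).1 w.2⟩ : Γ → Bool) = flip y.1 :=
          congrArg Subtype.val hw
        have h4 := congrArg flip h3
        rw [flip_flip, flip_flip] at h4
        have h5 : f ⟨flip w.1, (hmem w.1).1 w.2⟩ = y := Subtype.ext h4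
        refine ⟨⟨flip w.1, (hmem w.1).1 w.2⟩, ?_, h5⟩
        have h6 : OrbRel K ⟨flip w.1, (hmem w.1).1 w.2⟩ y := by
          rw [← h5]
          exact (hcomp _).1 ⟨_, (orbRel_equivalence K).refl _, rfl⟩
        exact (orbRel_equivalence K).trans hy1 ((orbRel_equivalence K).symm h6)
  · intro hco
    obtain ⟨φ, hφ⟩ := hΔ
    obtain ⟨K, k1, k2, k3, ⟨f, hf, hfi, hf1, hf2⟩, ⟨z, hz, hfix⟩, huniv⟩ :=
      main_internal Δ φ hφ hco
    obtain ⟨K', hK'⟩ : ∃ K' : Set (Γ → Bool), K' = flip ⁻¹' K := ⟨_, rfl⟩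
    have hmem : ∀ x, x ∈ K' ↔ flip x ∈ K := by
      intro x
      rw [hK']
      rfl
    have hmem' : ∀ x : K, flip (x : Γ → Bool) ∈ K' := fun x => by
      rw [hmem, flip_flip]
      exact x.2
    refine ⟨K', ⟨⟨flip z, hmem' ⟨z, hz⟩⟩, by
      rw [hK']
      exact k2.preimage flip_continuous, fun γ x hx => ?_⟩, ?_, ⟨orbRel_cber K', ?_⟩,
      ⟨flip z, hmem' ⟨z, hz⟩, fun δ hδ => by rw [shift_flip, hfix δ hδ]⟩⟩
    · rw [hmem] at hx ⊢
      rw [← act_flip]
      exact k3 γ _ hx
    · refine ⟨fun x => ⟨flip (f ⟨flip x.1, (hmem x.1).1 x.2⟩ : Γ → Bool), hmem' _⟩, ?_, ?_, ?_⟩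
      · apply Measurable.subtype_mk
        refine flip_measurable.comp (measurable_subtype_coe.comp (hf.comp ?_))
        exact (flip_measurable.comp measurable_subtype_coe).subtype_mk
      · intro x y hxy
        have h1 : flip (f ⟨flip x.1, (hmem x.1).1 x.2⟩ : Γ → Bool) =
            flip (f ⟨flip y.1, (hmem y.1).1 y.2⟩ : Γ → Bool) := congrArg Subtype.val hxy
        have h2 := congrArg flip h1
        rw [flip_flip, flip_flip] at h2
        have h3 := hfi (Subtype.ext h2)
        have h4 : flip x.1 = flip y.1 := congrArg Subtype.val h3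
        have h5 := congrArg flip h4
        rw [flip_flip, flip_flip] at h5
        exact Subtype.ext h5
      · intro x
        have key : ∀ y : K', OrbRel K' y
            ⟨flip (f ⟨flip y.1, (hmem y.1).1 y.2⟩ : Γ → Bool), hmem' _⟩ := by
          intro y
          rw [orbRel_iff, flip_flip]
          exact hf1 _
        rw [Set.ssubset_iff_exists]
        constructor
        · rintro y ⟨w, hw, rfl⟩
          exact (orbRel_equivalence K').trans hw (key w)
        · obtain ⟨z', hz1, hz2⟩ := hf2 ⟨flip x.1, (hmem x.1).1 x.2⟩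
          refine ⟨⟨flip z'.1, hmem' z'⟩, ?_, ?_⟩
          · have : OrbRel K' x ⟨flip z'.1, hmem' z'⟩ := by
              rw [orbRel_iff, flip_flip]
              exact hz1
            exact this
          · rintro ⟨w, -, hw⟩
            apply hz2
            have h3 : flip (f ⟨flip w.1, (hmem w.1).1 w.2⟩ : Γ → Bool) = flip z'.1 :=
              congrArg Subtype.val hw
            have h4 := congrArg flip h3
            rw [flip_flip, flip_flip] at h4
            exact ⟨_, Subtype.ext h4⟩
    · intro X _ _ E hE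
      obtain ⟨g, hg, hg1⟩ := huniv X E hE.1 hE.2.1 hE.2.2
      refine ⟨fun x => ⟨flip (g x).1, hmem' (g x)⟩,
        (flip_measurable.comp (measurable_subtype_coe.comp hg)).subtype_mk, fun x y => ?_⟩
      rw [orbRel_iff, flip_flip, flip_flip, ← hg1]
      exact ⟨fun h => hE.1.symm h, fun h => hE.1.symm h⟩

end Pool.Agent.Results.MP_35fb4b_lc.CompressibleUniversal
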