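import Pool.Agent.Results.MP_35fb4b_lc.CompressibleUniversal
import Pool.Agent.Lib.MP_35fb4b_lc.SR.N6

/-!
# Large classes of groups with a compressible orbit-universal subshift (MP_35fb4b_lc)

Let `Γ` be a countable group that contains a free group of rank 2. If some free subgroup of rank 2
is undistorted for a length function, or `Γ` has a non-amenable quotient whose kernel contains a
free group of rank 2, or some quotient of `Γ` has a subgroup as in `Large` below, then there is a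
compressible, orbit-universal subshift of `2^Γ`.
-/

set_option autoImplicit false

namespace Pool.Agent.Results.MP_35fb4b_lc.LargeClasses

open Pool.Agent.Results.MP_35fb4b_lc.CompressibleUniversal

/-- the free group of rank 2 -/
abbrev F2 : Type := FreeGroup (Fin 2)

/-- `G` contains a free group of rank 2. -/
def ContainsF2 (G : Type) [Group G] : Prop := ∃ φ : F2 →* G, Function.Injective φ

/-- `ℓ` is a length function on `Γ`: subadditive and invariant under inversion. -/
def IsLength {Γ : Type} [Group Γ] (ℓ : Γ → ℝ) : Prop :=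
  (∀ g h, ℓ (g * h) ≤ ℓ g + ℓ h) ∧ ∀ g, ℓ g⁻¹ = ℓ g

/-- Some free subgroup of rank 2 is undistorted for some length function. -/
def HasUndistortedF2 (Γ : Type) [Group Γ] : Prop :=
  ∃ (ℓ : Γ → ℝ) (φ : F2 →* Γ) (c C : ℝ), IsLength ℓ ∧ 0 < c ∧
    ∀ w : F2, c * FreeGroup.norm w - C ≤ ℓ (φ w)

/-- The action of `G` on `X` has an invariant mean: a `G`-invariant finitely additive probability
measure defined on all subsets of `X`. -/
def HasInvariantMean (G X : Type) [Group G] [MulAction G X] : Prop :=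
  ∃ m : Set X → ℝ, (∀ A, 0 ≤ m A) ∧ m Set.univ = 1 ∧
    (∀ A B, Disjoint A B → m (A ∪ B) = m A + m B) ∧
      ∀ (g : G) (A : Set X), m ((fun x => g • x) '' A) = m A

/-- `G` is amenable. -/
def IsAmenable (G : Type) [Group G] : Prop := HasInvariantMean G G

/-- Every action of `G` with an invariant mean has a finite orbit. -/
def PropertyFM (G : Type) [Group G] : Prop :=
  ∀ (X : Type) [MulAction G X], HasInvariantMean G X → ∃ x : X, (MulAction.orbit G x).Finite

/-- Some subgroup of finite index of `G` is free. -/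
def VirtuallyFree (G : Type) [Group G] : Prop := ∃ N : Subgroup G, N.FiniteIndex ∧ IsFreeGroup N

/-- No action of `G` all of whose point stabilizers are free groups has an invariant mean. -/
def NoMeanFreeStabilizers (G : Type) [Group G] : Prop :=
  ∀ (X : Type) [MulAction G X], (∀ x : X, IsFreeGroup (MulAction.stabilizer G x)) →
    ¬ HasInvariantMean G X

/-- `M` contains a product of two free groups of rank 2, or `M` is non-amenable and does not contain
a free group of rank 2, or `M` has property FM and is not virtually free, or no action of `M` with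
free stabilizers has an invariant mean. -/
def Large (M : Type) [Group M] : Prop :=
  (∃ φ : F2 × F2 →* M, Function.Injective φ) ∨ (¬ IsAmenable M ∧ ¬ ContainsF2 M) ∨
    (PropertyFM M ∧ ¬ VirtuallyFree M) ∨ NoMeanFreeStabilizers M

theorem noMean_of_large {Q : Type} [Group Q] [Countable Q] (M : Subgroup Q) (h : Large M) :
    ∃ M' : Subgroup Q, Pool.Agent.Lib.MP_35fb4b_lc.SR.NoMean M' := by
  rcases h with ⟨φ, hφ⟩ | ⟨hM, hM2⟩ | ⟨hM, hM2⟩ | hM
  · exact ⟨(M.subtype.comp φ).range,
      Pool.Agent.Lib.MP_35fb4b_lc.SR.noMean_range _ (M.subtype_injective.comp hφ)⟩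
  · exact ⟨M, Pool.Agent.Lib.MP_35fb4b_lc.SR.noMean_of_no_free hM fun φ hφ => hM2 ⟨φ, hφ⟩⟩
  · exact ⟨M, Pool.Agent.Lib.MP_35fb4b_lc.SR.noMean_of_finite_orbits hM
      fun N hN hN2 => hM2 ⟨N, hN, hN2⟩⟩
  · exact ⟨M, hM⟩

theorem result {Γ : Type} [Group Γ] [Countable Γ] (hΓ : ContainsF2 Γ)
    (h : HasUndistortedF2 Γ ∨
      ∃ (Q : Type) (_ : Group Q) (π : Γ →* Q), Function.Surjective π ∧
        ((¬ IsAmenable Q ∧ ContainsF2 π.ker) ∨ ∃ M : Subgroup Q, Large M)) :
    ∃ K : Set (Γ → Bool), IsSubshift K ∧ IsCompressible (OrbRel K) ∧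
      IsUniversalCBER (OrbRel K) := by
  -- it suffices to find a non-co-amenable free subgroup
  have key : ∀ ψ : F2 →* Γ, Function.Injective ψ →
      ¬ Pool.Agent.Lib.MP_35fb4b_lc.HasMean Γ (Γ ⧸ ψ.range) →
      ∃ K : Set (Γ → Bool), IsSubshift K ∧ IsCompressible (OrbRel K) ∧
        IsUniversalCBER (OrbRel K) := by
    intro ψ hψ hco
    obtain ⟨K, h1, h2, h3, -⟩ := (CompressibleUniversal.result ψ.range
      ⟨ψ.rangeRestrict, fun a b hab => hψ (congrArg Subtype.val hab)⟩).2 hco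
    exact ⟨K, h1, h2, h3⟩
  -- free subgroups of kernels of maps to non-amenable groups are not co-amenable
  have key2 : ∀ (Q : Type) [Group Q] (π : Γ →* Q), Function.Surjective π →
      ∀ ψ : F2 →* Γ, (∀ w, π (ψ w) = 1) → Pool.Agent.Lib.MP_35fb4b_lc.HasMean Γ (Γ ⧸ ψ.range) →
      Pool.Agent.Lib.MP_35fb4b_lc.HasMean Q Q := by
    intro Q _ π hπ ψ hψ hm
    refine Pool.Agent.Lib.MP_35fb4b_lc.SR.mean_of_bot ⊥ rfl
      (Pool.Agent.Lib.MP_35fb4b_lc.SR.push_coset π hπ ψ.range ⊥ ?_ hm)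
    rintro g ⟨w, rfl⟩
    rw [Subgroup.mem_bot]
    exact hψ w
  rcases h with ⟨ℓ, φ, c, C, hℓ, hc, hφ⟩ | ⟨Q, _, π, hπ, ⟨hQ, φ, hφ⟩ | ⟨M, hM⟩⟩
  · obtain ⟨ψ, hψ, hco⟩ :=
      Pool.Agent.Lib.MP_35fb4b_lc.SR.not_coamenable ℓ hℓ.1 hℓ.2 φ c C hc hφ
    exact key ψ hψ hco
  · refine key (π.ker.subtype.comp φ) (π.ker.subtype_injective.comp hφ) fun hm => hQ ?_
    exact key2 Q π hπ _ (fun w => MonoidHom.mem_ker.1 (φ w).2) hm
  · have : Countable Q := hπ.countable
    obtain ⟨M', hM'⟩ := noMean_of_large M hM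
    by_cases hQ : ContainsF2 Q
    · obtain ⟨φ, hφ⟩ := hQ
      obtain ⟨ψ, hψ⟩ := Pool.Agent.Lib.MP_35fb4b_lc.SR.exists_lift π hπ φ
      have hψi : Function.Injective ψ := by
        intro a b hab
        apply hφ
        rw [← hψ, ← hψ, hab]
      refine key ψ hψi fun hm => ?_
      refine Pool.Agent.Lib.MP_35fb4b_lc.SR.not_hasMean_of_noMean M' hM' φ hφ
        (Pool.Agent.Lib.MP_35fb4b_lc.SR.push_coset π hπ ψ.range φ.range ?_ hm)
      rintro g ⟨w, rfl⟩
      exact ⟨w, (hψ w).symm⟩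
    · obtain ⟨φ, hφ⟩ := hΓ
      obtain ⟨ψ, hψ, hψ1⟩ := Pool.Agent.Lib.MP_35fb4b_lc.SR.exists_in_ker π φ hφ
        fun hinj => hQ ⟨_, hinj⟩
      refine key ψ hψ fun hm => ?_
      obtain ⟨m, h0, h1, h2, h3⟩ := key2 Q π hπ ψ hψ1 hm
      refine hM' Q (fun x => ?_) ⟨m, h0, h1, h2, fun g A => h3 (g : Q) A⟩
      refine Pool.Agent.Lib.MP_35fb4b_lc.SR.n34_free_of_inj 1 fun a b _ => ?_
      have hstab : ∀ a : MulAction.stabilizer M' x, a = 1 := by
        intro a
        have h4 : ((a : M') : Q) * x = x := a.2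
        exact Subtype.ext (Subtype.ext (mul_eq_right.1 h4))
      rw [hstab a, hstab b]

end Pool.Agent.Results.MP_35fb4b_lc.LargeClasses
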