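import Pool.Agent.Results.MP_35fb4b_lc.CompressibleUniversal
import Pool.Agent.Lib.MP_35fb4b_lc.SR.Asm

/-!
# Which groups containing a free group have a compressible orbit-universal subshift (MP_35fb4b_lc)

Let `Γ` be a countable group that contains the free group of rank 2. There is a compressible,
orbit-universal subshift of `2^Γ` if and only if some subgroup of `Γ` isomorphic to the free group
of rank 2 is not co-amenable in `Γ`.
-/

set_option autoImplicit false

namespace Pool.Agent.Results.MP_35fb4b_lc.NonCoAmenableFree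

open Pool.Agent.Results.MP_35fb4b_lc.CompressibleUniversal

/-- `H` is isomorphic to the free group of rank 2. -/
def IsFreeOfRankTwo {Γ : Type} [Group Γ] (H : Subgroup Γ) : Prop :=
  Nonempty (H ≃* FreeGroup (Fin 2))

theorem result {Γ : Type} [Group Γ] [Countable Γ] (hΓ : ∃ H : Subgroup Γ, IsFreeOfRankTwo H) :
    (∃ K : Set (Γ → Bool), IsSubshift K ∧ IsCompressible (OrbRel K) ∧
      IsUniversalCBER (OrbRel K)) ↔
    ∃ H : Subgroup Γ, IsFreeOfRankTwo H ∧ ¬ CoAmenable H := by
  constructor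
  · rintro ⟨K, hK, hc, hu⟩
    obtain ⟨H, ⟨e⟩⟩ := hΓ
    by_contra hcon
    push Not at hcon
    -- a free subgroup of rank two, as the range of an injective homomorphism
    have hrange : ∀ φ : FreeGroup (Fin 2) →* Γ, Function.Injective φ →
        IsFreeOfRankTwo φ.range := fun φ hφ => ⟨(MonoidHom.ofInjective hφ).symm⟩
    obtain ⟨φ, hφ⟩ : ∃ φ : FreeGroup (Fin 2) →* Γ, Function.Injective φ :=
      ⟨H.subtype.comp e.symm.toMonoidHom, H.subtype_injective.comp e.symm.injective⟩
    obtain ⟨y, hy, ψ, hψ, hfix⟩ :=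
      Pool.Agent.Lib.MP_35fb4b_lc.SR.core φ hφ (hcon _ (hrange φ hφ)) K hK hu
    have hinj : Function.Injective (φ.comp ψ) := hφ.comp hψ
    refine (CompressibleUniversal.result (φ.comp ψ).range
      ⟨(φ.comp ψ).rangeRestrict, fun a b hab => hinj (congrArg Subtype.val hab)⟩).1
      ⟨K, hK, hc, hu, y, hy, ?_⟩ (hcon _ (hrange _ hinj))
    rintro δ ⟨g, rfl⟩
    exact hfix g
  · rintro ⟨H, ⟨e⟩, hco⟩
    obtain ⟨K, h1, h2, h3, -⟩ := (CompressibleUniversal.result H
      ⟨e.symm.toMonoidHom, e.symm.injective⟩).2 hco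
    exact ⟨K, h1, h2, h3⟩

end Pool.Agent.Results.MP_35fb4b_lc.NonCoAmenableFree
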