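import Pool.Agent.Results.MP_35fb4b_lc.LargeClasses
import Pool.Agent.Results.MP_35fb4b_lc.NonCoAmenableFree
import Pool.Agent.Lib.MP_35fb4b_lc.SR.P3
import Pool.Agent.Lib.MP_35fb4b_lc.SR.W13

/-!
# Subgroups, and the structure of a counterexample (MP_35fb4b_lc)

Let `Γ` be a countable group that contains a free group of rank 2. There is a compressible,
orbit-universal subshift of `2^Γ` if and only if `Γ` has a subgroup that is neither amenable nor
co-amenable in `Γ`. Permanence properties of the class of counterexamples to the forward half of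
Q1, restrictions on their subgroups, and a reduction to groups in which every nontrivial normal
subgroup contains a free group of rank 2 and has amenable quotient. If `u` and `v` do not commute
and the subgroup generated by `u`, `v`, `g` is residually free for every `g`, there is such a
subshift.
-/

set_option autoImplicit false

namespace Pool.Agent.Results.MP_35fb4b_lc.SubgroupDichotomy

open Pool.Agent.Results.MP_35fb4b_lc.CompressibleUniversal
open Pool.Agent.Results.MP_35fb4b_lc.LargeClasses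
open Pool.Agent.Lib.MP_35fb4b_lc (HasMean)
open Pool.Agent.Lib.MP_35fb4b_lc.SR (push_mean push_coset mean_of_bot exists_lift exists_in_ker
  mean_down mean_ind powHom powHom_injective n1_center mean_trans exists_free_in_stab exists_coset
  mean_of_increasing p1_j p1_j_smul ResiduallyFree TwoPairs res_free res_three w10_not_mean
  w13_range w13_top)

/-- There is a compressible, orbit-universal subshift of `2^Γ`. -/
def HasSubshift (Γ : Type) [Group Γ] : Prop :=
  ∃ K : Set (Γ → Bool), IsSubshift K ∧ IsCompressible (OrbRel K) ∧ IsUniversalCBER (OrbRel K)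

/-- `Γ` is a counterexample to the forward half of Q1: a countable group that contains a free
group of rank 2, without compressible, orbit-universal subshift of `2^Γ`. -/
def IsCounterexample (Γ : Type) [Group Γ] : Prop :=
  Countable Γ ∧ ContainsF2 Γ ∧ ¬ HasSubshift Γ

/-- Every nontrivial normal subgroup of `Γ` contains a free group of rank 2 and has amenable
quotient. -/
def IsReduced (Γ : Type) [Group Γ] : Prop :=
  ∀ (N : Subgroup Γ) [N.Normal], N ≠ ⊥ → ContainsF2 N ∧ IsAmenable (Γ ⧸ N)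

/-! ### free groups -/

/-- the free group of rank 2 is not amenable -/
theorem not_mean_F2 : ¬ HasMean F2 F2 := by
  intro h
  obtain ⟨ψ, -, hψ⟩ := Pool.Agent.Lib.MP_35fb4b_lc.SR.not_coamenable (Γ := F2)
    (fun w => (FreeGroup.norm w : ℝ)) (fun g h => by
      exact_mod_cast FreeGroup.norm_mul_le g h) (fun g => by simp [FreeGroup.norm_inv_eq])
    (MonoidHom.id F2) 1 0 one_pos (fun w => by simp)
  exact hψ (push_mean (MonoidHom.id F2) Function.surjective_id
    (fun x : F2 => (x : F2 ⧸ ψ.range)) (fun g x => rfl) h)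

theorem not_mean_range {Γ : Type} [Group Γ] (ψ : F2 →* Γ) (hψ : Function.Injective ψ) :
    ¬ IsAmenable ψ.range := by
  intro h
  let e : F2 ≃* ψ.range := MonoidHom.ofInjective hψ
  refine not_mean_F2 (push_mean e.symm.toMonoidHom e.symm.surjective (fun x => e.symm x)
    (fun g x => ?_) h)
  exact map_mul e.symm g x

/-! ### the criterion -/

/-- if `Γ` has such a subshift, some free subgroup of rank 2 is not co-amenable -/
theorem free_of_hasSubshift {Γ : Type} [Group Γ] [Countable Γ] (hΓ : ContainsF2 Γ)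
    (h : HasSubshift Γ) :
    ∃ ψ : F2 →* Γ, Function.Injective ψ ∧ ¬ HasMean Γ (Γ ⧸ ψ.range) := by
  obtain ⟨φ, hφ⟩ := hΓ
  obtain ⟨H, ⟨e⟩, hH⟩ := (NonCoAmenableFree.result (Γ := Γ)
    ⟨φ.range, ⟨(MonoidHom.ofInjective hφ).symm⟩⟩).1 h
  refine ⟨H.subtype.comp e.symm.toMonoidHom, H.subtype_injective.comp e.symm.injective, ?_⟩
  have hr : (H.subtype.comp e.symm.toMonoidHom).range = H := by
    ext x
    constructor
    · rintro ⟨w, rfl⟩
      exact (e.symm w).2
    · intro hx
      exact ⟨e ⟨x, hx⟩, by simp⟩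
  rw [hr]
  exact hH

/-- a free subgroup of rank 2 that is not co-amenable gives such a subshift -/
theorem hasSubshift_of_free {Γ : Type} [Group Γ] [Countable Γ] (ψ : F2 →* Γ)
    (hψ : Function.Injective ψ) (h : ¬ HasMean Γ (Γ ⧸ ψ.range)) : HasSubshift Γ :=
  (NonCoAmenableFree.result (Γ := Γ) ⟨ψ.range, ⟨(MonoidHom.ofInjective hψ).symm⟩⟩).2
    ⟨ψ.range, ⟨(MonoidHom.ofInjective hψ).symm⟩, h⟩

/-- co-amenability passes to larger subgroups -/
theorem mono {Γ : Type} [Group Γ] {H L : Subgroup Γ} (hHL : H ≤ L) (h : HasMean Γ (Γ ⧸ H)) :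
    HasMean Γ (Γ ⧸ L) :=
  push_coset (MonoidHom.id Γ) Function.surjective_id H L (fun _ hg => hHL hg) h

/-- in a counterexample, subgroups with a free subgroup of rank 2 are co-amenable -/
theorem coamenable_of_contains {Γ : Type} [Group Γ] (hΓ : IsCounterexample Γ) (M : Subgroup Γ)
    (hM : ContainsF2 M) : CoAmenable M := by
  obtain ⟨hc, -, hn⟩ := hΓ
  obtain ⟨φ, hφ⟩ := hM
  by_contra hcon
  refine hn (hasSubshift_of_free (M.subtype.comp φ) (M.subtype_injective.comp hφ) fun hm => ?_)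
  refine hcon (mono ?_ hm)
  rintro x ⟨w, rfl⟩
  exact (φ w).2

/-- in a counterexample, subgroups without free subgroup of rank 2 are amenable -/
theorem amenable_of_not_contains {Γ : Type} [Group Γ] (hΓ : IsCounterexample Γ) (M : Subgroup Γ)
    (hM : ¬ ContainsF2 M) : IsAmenable M := by
  obtain ⟨hc, hf, hn⟩ := hΓ
  by_contra hcon
  exact hn (LargeClasses.result hf (Or.inr ⟨Γ, inferInstance, MonoidHom.id Γ,
    Function.surjective_id, Or.inr ⟨M, Or.inr (Or.inl ⟨hcon, hM⟩)⟩⟩))

theorem criterion {Γ : Type} [Group Γ] [Countable Γ] (hΓ : ContainsF2 Γ) :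
    HasSubshift Γ ↔ ∃ M : Subgroup Γ, ¬ IsAmenable M ∧ ¬ CoAmenable M := by
  constructor
  · intro h
    obtain ⟨ψ, hψ, hco⟩ := free_of_hasSubshift hΓ h
    exact ⟨ψ.range, not_mean_range ψ hψ, hco⟩
  · rintro ⟨M, h1, h2⟩
    by_contra hcon
    have hce : IsCounterexample Γ := ⟨inferInstance, hΓ, hcon⟩
    by_cases hM : ContainsF2 M
    · exact h2 (coamenable_of_contains hce M hM)
    · exact h1 (amenable_of_not_contains hce M hM)

/-! ### subgroups of finite index -/

/-- free subgroups of rank 2 can be moved into subgroups of finite index -/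
theorem into_finiteIndex {Γ : Type} [Group Γ] (Δ : Subgroup Γ) [hΔ : Δ.FiniteIndex]
    (ψ : F2 →* Γ) (hψ : Function.Injective ψ) :
    ∃ φ : F2 →* Δ, Function.Injective φ ∧ ∀ w, ((φ w : Δ) : Γ) ∈ ψ.range := by
  have hpow : ∀ g : Γ, g ^ (Nat.factorial Δ.index) ∈ Δ := fun g =>
    Subgroup.pow_mem_of_index_ne_zero_of_dvd hΔ.index_ne_zero g fun m hm hm' =>
      Nat.dvd_factorial hm hm'
  have hinj := powHom_injective (Nat.factorial Δ.index) (Nat.factorial_pos _)
  have hmem : ∀ w, ψ (powHom (Nat.factorial Δ.index) w) ∈ Δ := by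
    have h1 : (ψ.comp (powHom (Nat.factorial Δ.index))).range ≤ Δ := by
      have h2 : (ψ.comp (powHom (Nat.factorial Δ.index))).range =
          ((FreeGroup.lift fun i : Fin 2 => ψ (FreeGroup.of i) ^ (Nat.factorial Δ.index))).range := by
        congr 1
        ext i
        simp [powHom]
      rw [h2]
      refine FreeGroup.range_lift_le ?_
      rintro x ⟨i, rfl⟩
      exact hpow _
    exact fun w => h1 ⟨w, rfl⟩
  refine ⟨(ψ.comp (powHom (Nat.factorial Δ.index))).codRestrict Δ hmem, fun a b hab => ?_, ?_⟩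
  · exact hinj (hψ (congrArg Subtype.val hab))
  · intro w
    exact ⟨_, rfl⟩

theorem countable_of_finiteIndex {Γ : Type} [Group Γ] (Δ : Subgroup Γ) [hΔ : Δ.FiniteIndex]
    (h : Countable Δ) : Countable Γ := by
  have : Finite (Γ ⧸ Δ) := inferInstance
  exact (Subgroup.groupEquivQuotientProdSubgroup (s := Δ)).injective.countable

theorem finiteIndex_iff {Γ : Type} [Group Γ] (Δ : Subgroup Γ) (hΔ : Δ.FiniteIndex) :
    IsCounterexample Δ ↔ IsCounterexample Γ := by
  constructor
  · rintro ⟨hc, ⟨φ, hφ⟩, hn⟩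
    have hcΓ : Countable Γ := countable_of_finiteIndex Δ hc
    refine ⟨hcΓ, ⟨Δ.subtype.comp φ, Δ.subtype_injective.comp hφ⟩, fun h => ?_⟩
    obtain ⟨ψ, hψ, hco⟩ := free_of_hasSubshift
      ⟨Δ.subtype.comp φ, Δ.subtype_injective.comp hφ⟩ h
    obtain ⟨θ, hθ, hθψ⟩ := into_finiteIndex Δ ψ hψ
    refine hn (hasSubshift_of_free θ hθ fun hm => hco ?_)
    refine mono ?_ (mean_ind Δ θ.range hm)
    rintro x ⟨y, ⟨w, rfl⟩, rfl⟩
    exact hθψ w
  · rintro ⟨hc, ⟨φ, hφ⟩, hn⟩
    obtain ⟨θ, hθ, -⟩ := into_finiteIndex Δ φ hφ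
    refine ⟨inferInstance, ⟨θ, hθ⟩, fun h => ?_⟩
    obtain ⟨ψ, hψ, hco⟩ := free_of_hasSubshift ⟨θ, hθ⟩ h
    refine hn (hasSubshift_of_free (Δ.subtype.comp ψ) (Δ.subtype_injective.comp hψ) fun hm => ?_)
    rw [MonoidHom.range_comp] at hm
    exact hco (mean_down Δ ψ.range hm)

/-! ### co-amenable subgroups and increasing unions -/

theorem coamenable_overgroup {Γ : Type} [Group Γ] [Countable Γ] (L : Subgroup Γ)
    (hL : CoAmenable L) (hce : IsCounterexample L) : IsCounterexample Γ := by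
  obtain ⟨hc, ⟨φ, hφ⟩, hn⟩ := hce
  have hF : ContainsF2 Γ := ⟨L.subtype.comp φ, L.subtype_injective.comp hφ⟩
  refine ⟨inferInstance, hF, fun h => ?_⟩
  obtain ⟨ψ, hψ, hco⟩ := free_of_hasSubshift hF h
  obtain ⟨x, θ, hθ, hθ2⟩ := exists_free_in_stab ψ hψ not_mean_F2 hL
  obtain ⟨γ, rfl⟩ := QuotientGroup.mk_surjective x
  -- conjugate `θ` into `L`
  have hmem : ∀ w, γ⁻¹ * θ w * γ ∈ L := by
    intro w
    have h1 : ((θ w * γ : Γ) : Γ ⧸ L) = ((γ : Γ) : Γ ⧸ L) := (hθ2 w).2
    have h2 := QuotientGroup.eq.1 h1.symm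
    rwa [← mul_assoc] at h2
  let η : F2 →* L :=
    { toFun := fun w => ⟨γ⁻¹ * θ w * γ, hmem w⟩
      map_one' := by
        apply Subtype.ext
        simp
      map_mul' := by
        intro a b
        apply Subtype.ext
        simp [mul_assoc] }
  have hη : ∀ w, ((η w : L) : Γ) = γ⁻¹ * θ w * γ := fun w => rfl
  have hηi : Function.Injective η := by
    intro a b hab
    have h1 : γ⁻¹ * θ a * γ = γ⁻¹ * θ b * γ := congrArg Subtype.val hab
    exact hθ (mul_left_cancel (mul_right_cancel h1))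
  refine hn (hasSubshift_of_free η hηi fun hm => hco ?_)
  refine push_coset (MulAut.conj γ).toMonoidHom (MulAut.conj γ).surjective _ ψ.range ?_
    (mean_trans L η.range hL hm)
  rintro g ⟨y, ⟨w, rfl⟩, rfl⟩
  have h1 : (MulAut.conj γ).toMonoidHom (L.subtype (η w)) = θ w := by
    show γ * ((η w : L) : Γ) * γ⁻¹ = θ w
    rw [hη]
    group
  rw [h1]
  exact (hθ2 w).1

theorem increasing_union {Γ : Type} [Group Γ] (G : ℕ → Subgroup Γ) (hG : Monotone G)
    (hU : ∀ g, ∃ n, g ∈ G n) (hce : ∀ n, IsCounterexample (G n)) : IsCounterexample Γ := by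
  have hc : Countable Γ := by
    have hcn : ∀ n, Countable (G n) := fun n => (hce n).1
    refine Function.Surjective.countable (f := fun x : Σ n, G n => (x.2 : Γ)) fun g => ?_
    obtain ⟨n, hn⟩ := hU g
    exact ⟨⟨n, ⟨g, hn⟩⟩, rfl⟩
  obtain ⟨φ, hφ⟩ := (hce 0).2.1
  have hF : ContainsF2 Γ := ⟨(G 0).subtype.comp φ, (G 0).subtype_injective.comp hφ⟩
  refine ⟨hc, hF, fun h => ?_⟩
  obtain ⟨ψ, hψ, hco⟩ := free_of_hasSubshift hF h
  obtain ⟨n0, hn0⟩ := hU (ψ (FreeGroup.of 0))
  obtain ⟨n1, hn1⟩ := hU (ψ (FreeGroup.of 1))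
  have hle : ψ.range ≤ G (n0 + n1) := by
    have h3 : ψ = FreeGroup.lift fun i => ψ (FreeGroup.of i) := by
      ext i
      simp
    rw [h3]
    refine FreeGroup.range_lift_le ?_
    rintro x ⟨i, rfl⟩
    fin_cases i
    · exact hG (Nat.le_add_right n0 n1) hn0
    · exact hG (Nat.le_add_left n1 n0) hn1
  refine hco (mean_of_increasing (fun n => G (n + (n0 + n1)))
    (fun a b hab => hG (Nat.add_le_add_right hab _))
    (fun g => ?_) fun n => ?_)
  · obtain ⟨n, hn⟩ := hU g
    exact ⟨n, hG (Nat.le_add_right n _) hn⟩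
  · have hle' : ψ.range ≤ G (n + (n0 + n1)) := hle.trans (hG (Nat.le_add_left _ n))
    have hmem : ∀ w, ψ w ∈ G (n + (n0 + n1)) := fun w => hle' ⟨w, rfl⟩
    obtain ⟨θ, hθ⟩ : ∃ θ : F2 →* G (n + (n0 + n1)), ∀ w, ((θ w : G (n + (n0 + n1))) : Γ) = ψ w :=
      ⟨ψ.codRestrict _ hmem, fun w => rfl⟩
    have hθi : Function.Injective θ := by
      intro a b hab
      apply hψ
      rw [← hθ, ← hθ, hab]
    have hm : HasMean (G (n + (n0 + n1))) (G (n + (n0 + n1)) ⧸ θ.range) := by
      obtain ⟨hcn, -, hn⟩ := hce (n + (n0 + n1))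
      by_contra hcon
      exact hn (hasSubshift_of_free θ hθi hcon)
    have hr : θ.range.map (G (n + (n0 + n1))).subtype = ψ.range := by
      ext x
      constructor
      · rintro ⟨y, ⟨w, rfl⟩, rfl⟩
        exact ⟨w, (hθ w).symm⟩
      · rintro ⟨w, rfl⟩
        exact ⟨θ w, ⟨w, rfl⟩, hθ w⟩
    rw [← hr]
    exact push_mean (MonoidHom.id _) Function.surjective_id (p1_j _ θ.range)
      (fun g x => p1_j_smul _ θ.range g x) hm

/-! ### intersections -/

theorem intersections {Γ : Type} [Group Γ] (hΓ : IsCounterexample Γ) (B : Subgroup Γ)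
    (hB : ¬ IsAmenable B) (k : ℕ) (A : Fin k → Subgroup Γ) (hA : ∀ i, ¬ IsAmenable (A i)) :
    {x : Γ ⧸ B | ∀ i, ¬ IsAmenable (A i ⊓ MulAction.stabilizer Γ x : Subgroup Γ)}.Nonempty ∧
    (¬ B.FiniteIndex →
      {x : Γ ⧸ B | ∀ i, ¬ IsAmenable (A i ⊓ MulAction.stabilizer Γ x : Subgroup Γ)}.Infinite) := by
  have hBF : ContainsF2 B := by
    by_contra h
    exact hB (amenable_of_not_contains hΓ B h)
  have hBm := coamenable_of_contains hΓ B hBF
  have hc : Countable Γ := hΓ.1
  exact exists_coset B hBm k A hA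

/-! ### normal subgroups -/

/-- the quotient by a co-amenable normal subgroup is amenable -/
theorem amenable_quotient {Γ : Type} [Group Γ] (N : Subgroup Γ) [N.Normal] (h : CoAmenable N) :
    IsAmenable (Γ ⧸ N) := by
  refine mean_of_bot ⊥ rfl (push_coset (QuotientGroup.mk' N) (QuotientGroup.mk'_surjective N)
    N ⊥ ?_ h)
  intro g hg
  rw [Subgroup.mem_bot, QuotientGroup.mk'_apply, QuotientGroup.eq_one_iff]
  exact hg

/-- free subgroups survive in quotients by subgroups without free subgroups of rank 2 -/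
theorem injective_quotient {Γ Q : Type} [Group Γ] [Group Q] (π : Γ →* Q)
    (hN : ¬ ContainsF2 π.ker) (φ : F2 →* Γ) (hφ : Function.Injective φ) :
    Function.Injective (π.comp φ) := by
  by_contra hcon
  obtain ⟨ψ, hψ, hψ1⟩ := exists_in_ker π φ hφ hcon
  refine hN ⟨ψ.codRestrict π.ker fun w => MonoidHom.mem_ker.2 (hψ1 w), fun a b hab => ?_⟩
  exact hψ (congrArg Subtype.val hab)

theorem quotient_counterexample {Γ : Type} [Group Γ] (N : Subgroup Γ) [N.Normal]
    (hΓ : IsCounterexample Γ) (hN : ¬ ContainsF2 N) : IsCounterexample (Γ ⧸ N) := by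
  have hker : ¬ ContainsF2 (QuotientGroup.mk' N).ker := by
    rw [QuotientGroup.ker_mk']
    exact hN
  obtain ⟨hc, ⟨φ, hφ⟩, hn⟩ := hΓ
  have hcQ : Countable (Γ ⧸ N) := (QuotientGroup.mk'_surjective N).countable
  have hQ : ContainsF2 (Γ ⧸ N) := ⟨_, injective_quotient (QuotientGroup.mk' N) hker φ hφ⟩
  refine ⟨hcQ, hQ, fun h => ?_⟩
  obtain ⟨ψ, hψ, hco⟩ := free_of_hasSubshift hQ h
  obtain ⟨θ, hθ⟩ := exists_lift (QuotientGroup.mk' N) (QuotientGroup.mk'_surjective N) ψ
  have hθi : Function.Injective θ := by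
    intro a b hab
    apply hψ
    rw [← hθ, ← hθ, hab]
  refine hn (hasSubshift_of_free θ hθi fun hm => hco ?_)
  refine push_coset (QuotientGroup.mk' N) (QuotientGroup.mk'_surjective N) θ.range ψ.range ?_ hm
  rintro g ⟨w, rfl⟩
  exact ⟨w, (hθ w).symm⟩

theorem normal_dichotomy {Γ : Type} [Group Γ] (hΓ : IsCounterexample Γ) (N : Subgroup Γ)
    [N.Normal] :
    (IsAmenable N ∧ IsCounterexample (Γ ⧸ N)) ∨ (ContainsF2 N ∧ IsAmenable (Γ ⧸ N)) := by
  by_cases h : ContainsF2 N
  · exact Or.inr ⟨h, amenable_quotient N (coamenable_of_contains hΓ N h)⟩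
  · exact Or.inl ⟨amenable_of_not_contains hΓ N h, quotient_counterexample N hΓ h⟩

/-! ### commuting subgroups -/

theorem commuting {Γ : Type} [Group Γ] (hΓ : IsCounterexample Γ) (A B : Subgroup Γ)
    (hAB : ∀ a ∈ A, ∀ b ∈ B, a * b = b * a) : IsAmenable A ∨ IsAmenable B := by
  by_contra hcon
  push Not at hcon
  have hA : ContainsF2 A := by
    by_contra h
    exact hcon.1 (amenable_of_not_contains hΓ A h)
  have hB : ContainsF2 B := by
    by_contra h
    exact hcon.2 (amenable_of_not_contains hΓ B h)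
  obtain ⟨φ, hφ⟩ := hA
  obtain ⟨ψ, hψ⟩ := hB
  let f : F2 × F2 →* Γ := MonoidHom.noncommCoprod (A.subtype.comp φ) (B.subtype.comp ψ)
    (fun u v => hAB _ (φ u).2 _ (ψ v).2)
  have hf : ∀ p, f p = (φ p.1 : Γ) * (ψ p.2 : Γ) := fun p => rfl
  have hfi : Function.Injective f := by
    rw [injective_iff_map_eq_one]
    rintro ⟨u, v⟩ huv
    rw [hf] at huv
    simp only at huv
    have hu : u = 1 := by
      apply n1_center 0 1 (by decide : (0 : Fin 2) ≠ 1)
      intro x
      apply hφ
      apply Subtype.ext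
      have h1 : (φ u : Γ) = ((ψ v : B) : Γ)⁻¹ := eq_inv_of_mul_eq_one_left huv
      have h2 : (φ x : Γ) * ((ψ v : B) : Γ)⁻¹ = ((ψ v : B) : Γ)⁻¹ * (φ x : Γ) :=
        hAB _ (φ x).2 _ (B.inv_mem (ψ v).2)
      rw [map_mul, map_mul, Subgroup.coe_mul, Subgroup.coe_mul, h1, h2]
    subst hu
    rw [map_one, Subgroup.coe_one, one_mul] at huv
    have hv : v = 1 := by
      apply hψ
      apply Subtype.ext
      rw [huv, map_one, Subgroup.coe_one]
    rw [hv]
    rfl
  obtain ⟨hc, hF, hn⟩ := hΓ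
  refine hn (LargeClasses.result hF (Or.inr ⟨Γ, inferInstance, MonoidHom.id Γ,
    Function.surjective_id, Or.inr ⟨⊤, Or.inl ⟨f.codRestrict ⊤ fun _ => trivial, ?_⟩⟩⟩))
  intro a b hab
  exact hfi (congrArg Subtype.val hab)

/-! ### reduction -/

theorem nontrivial_F2 : (FreeGroup.of (0 : Fin 2) : F2) ≠ 1 := FreeGroup.of_ne_one _

/-- a maximal normal subgroup without free subgroup of rank 2 -/
theorem exists_radical (Γ : Type) [Group Γ] : ∃ R : Subgroup Γ, R.Normal ∧ ¬ ContainsF2 R ∧
    ∀ N : Subgroup Γ, N.Normal → R ≤ N → ¬ ContainsF2 N → N = R := by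
  obtain ⟨R, -, hR⟩ := zorn_le_nonempty₀ {N : Subgroup Γ | N.Normal ∧ ¬ ContainsF2 N}
    (by
      intro c hc hchain y hy
      have hne : c.Nonempty := ⟨y, hy⟩
      have hdir : DirectedOn (· ≤ ·) c := hchain.directedOn
      refine ⟨sSup c, ⟨⟨fun x hx g => ?_⟩, ?_⟩, fun z hz => le_sSup hz⟩
      · rw [Subgroup.mem_sSup_of_directedOn hne hdir] at hx ⊢
        obtain ⟨N, hN, hxN⟩ := hx
        exact ⟨N, hN, (hc hN).1.conj_mem x hxN g⟩
      · rintro ⟨φ, hφ⟩
        have h0 := (φ (FreeGroup.of 0)).2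
        have h1 := (φ (FreeGroup.of 1)).2
        rw [Subgroup.mem_sSup_of_directedOn hne hdir] at h0 h1
        obtain ⟨N0, hN0, h0⟩ := h0
        obtain ⟨N1, hN1, h1⟩ := h1
        obtain ⟨N, hN, hle0, hle1⟩ := hdir N0 hN0 N1 hN1
        have hmem : ∀ w, ((φ w : (sSup c : Subgroup Γ)) : Γ) ∈ N := by
          have h2 : ((sSup c).subtype.comp φ).range ≤ N := by
            have h3 : (sSup c).subtype.comp φ =
                FreeGroup.lift fun i => ((φ (FreeGroup.of i) : (sSup c : Subgroup Γ)) : Γ) := by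
              ext i
              simp
            rw [h3]
            refine FreeGroup.range_lift_le ?_
            rintro x ⟨i, rfl⟩
            fin_cases i
            · exact hle0 h0
            · exact hle1 h1
          exact fun w => h2 ⟨w, rfl⟩
        refine (hc hN).2 ⟨((sSup c).subtype.comp φ).codRestrict N hmem, fun a b hab => ?_⟩
        have h4 : ((φ a : (sSup c : Subgroup Γ)) : Γ) = ((φ b : (sSup c : Subgroup Γ)) : Γ) :=
          congrArg (fun z : N => (z : Γ)) hab
        exact hφ (Subtype.ext h4))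
    ⊥ ⟨inferInstance, by
      rintro ⟨φ, hφ⟩
      exact nontrivial_F2 (hφ (Subsingleton.elim _ _))⟩
  refine ⟨R, hR.prop.1, hR.prop.2, fun N h1 h2 h3 => ?_⟩
  exact le_antisymm (hR.le_of_ge ⟨h1, h3⟩ h2) h2

theorem reduction {Γ : Type} [Group Γ] (hΓ : IsCounterexample Γ) :
    ∃ (Q : Type) (_ : Group Q), IsCounterexample Q ∧ IsReduced Q := by
  obtain ⟨R, hR, hRF, hmax⟩ := exists_radical Γ
  have hQ := quotient_counterexample R hΓ hRF
  refine ⟨Γ ⧸ R, inferInstance, hQ, ?_⟩
  intro N hN hne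
  have hcF : ContainsF2 N := by
    have hR' : ¬ ContainsF2 (QuotientGroup.mk' R).ker := by
      rw [QuotientGroup.ker_mk']
      exact hRF
    have hle : R ≤ N.comap (QuotientGroup.mk' R) := by
      intro x hx
      rw [Subgroup.mem_comap, QuotientGroup.mk'_apply, (QuotientGroup.eq_one_iff x).2 hx]
      exact N.one_mem
    have hcon : ContainsF2 (N.comap (QuotientGroup.mk' R)) := by
      by_contra hcon
      have h1 := hmax _ inferInstance hle hcon
      apply hne
      rw [eq_bot_iff]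
      intro x hx
      obtain ⟨g, rfl⟩ := QuotientGroup.mk'_surjective R x
      have h2 : g ∈ N.comap (QuotientGroup.mk' R) := hx
      rw [h1] at h2
      rw [Subgroup.mem_bot, QuotientGroup.mk'_apply, QuotientGroup.eq_one_iff]
      exact h2
    obtain ⟨φ, hφ⟩ := hcon
    have h2 := injective_quotient (QuotientGroup.mk' R) hR'
      ((N.comap (QuotientGroup.mk' R)).subtype.comp φ)
      ((N.comap (QuotientGroup.mk' R)).subtype_injective.comp hφ)
    refine ⟨((QuotientGroup.mk' R).comp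
      ((N.comap (QuotientGroup.mk' R)).subtype.comp φ)).codRestrict N fun w => (φ w).2,
      fun a b hab => ?_⟩
    exact h2 (congrArg Subtype.val hab)
  exact ⟨hcF, amenable_quotient N (coamenable_of_contains hQ N hcF)⟩

/-! ### groups with many residually free subgroups -/

/-- non-commutative free groups have such a subshift -/
theorem free_hasSubshift {G : Type} [Group G] [Countable G] (hG : IsFreeGroup G)
    (hna : ∃ a b : G, a * b ≠ b * a) : HasSubshift G := by
  classical
  obtain ⟨a, b, hab⟩ := hna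
  let e : G ≃* FreeGroup (IsFreeGroup.Generators G) := IsFreeGroup.toFreeGroup G
  obtain ⟨i, j, hij⟩ : ∃ i j : IsFreeGroup.Generators G, i ≠ j := by
    by_contra hcon
    push Not at hcon
    apply hab
    apply e.injective
    have hcomm : ∀ x ∈ Set.range (FreeGroup.of : IsFreeGroup.Generators G → _),
        ∀ y ∈ Set.range (FreeGroup.of : IsFreeGroup.Generators G → _), x * y = y * x := by
      rintro x ⟨i, rfl⟩ y ⟨j, rfl⟩
      rw [hcon i j]
    have htop : ∀ x : FreeGroup (IsFreeGroup.Generators G),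
        x ∈ Subgroup.closure (Set.range (FreeGroup.of : IsFreeGroup.Generators G → _)) := by
      intro x
      rw [FreeGroup.closure_range_of]
      trivial
    have h1 := (Subgroup.closureCommGroupOfComm hcomm).mul_comm ⟨e a, htop _⟩ ⟨e b, htop _⟩
    rw [map_mul, map_mul]
    exact congrArg Subtype.val h1
  let π : FreeGroup (IsFreeGroup.Generators G) →* F2 :=
    FreeGroup.lift fun k => if k = i then FreeGroup.of 0 else if k = j then FreeGroup.of 1 else 1
  let ψ : F2 →* FreeGroup (IsFreeGroup.Generators G) :=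
    FreeGroup.lift ![FreeGroup.of i, FreeGroup.of j]
  have hπψ : ∀ w, π (ψ w) = w := by
    intro w
    have h1 : π.comp ψ = MonoidHom.id F2 := by
      ext k
      fin_cases k
      · simp [π, ψ]
      · simp [π, ψ, hij.symm]
    exact DFunLike.congr_fun h1 w
  let φ : F2 →* G := e.symm.toMonoidHom.comp ψ
  have hφ : ∀ w, π (e (φ w)) = w := by
    intro w
    have h1 : e (φ w) = ψ w := e.apply_symm_apply (ψ w)
    rw [h1, hπψ]
  have hφi : Function.Injective φ := by
    intro x y hxy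
    rw [← hφ x, ← hφ y, hxy]
  refine LargeClasses.result ⟨φ, hφi⟩ (Or.inl ⟨fun g => (FreeGroup.norm (π (e g)) : ℝ), φ, 1, 0,
    ⟨fun g h => ?_, fun g => ?_⟩, one_pos, fun w => ?_⟩)
  · simp only [map_mul]
    exact_mod_cast FreeGroup.norm_mul_le _ _
  · simp only [map_inv, FreeGroup.norm_inv_eq]
  · simp only [hφ, one_mul, sub_zero, le_refl]

theorem commuting_closures {Γ : Type} [Group Γ] (p q r s : Γ) (h1 : p * r = r * p)
    (h2 : p * s = s * p) (h3 : q * r = r * q) (h4 : q * s = s * q) :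
    ∀ a ∈ Subgroup.closure ({p, q} : Set Γ), ∀ b ∈ Subgroup.closure ({r, s} : Set Γ),
      a * b = b * a := by
  intro a ha b hb
  have hb' : b ∈ Subgroup.centralizer ({p, q} : Set Γ) := by
    have hle : Subgroup.closure ({r, s} : Set Γ) ≤ Subgroup.centralizer ({p, q} : Set Γ) := by
      rw [Subgroup.closure_le]
      rintro x (rfl | rfl)
      · refine Subgroup.mem_centralizer_iff.2 ?_
        rintro y (rfl | rfl)
        · exact h1
        · exact h3
      · refine Subgroup.mem_centralizer_iff.2 ?_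
        rintro y (rfl | rfl)
        · exact h2
        · exact h4
    exact hle hb
  have ha' : a ∈ Subgroup.centralizer ({b} : Set Γ) := by
    have hle : Subgroup.closure ({p, q} : Set Γ) ≤ Subgroup.centralizer ({b} : Set Γ) := by
      rw [Subgroup.closure_le]
      intro x hx
      refine Subgroup.mem_centralizer_iff.2 ?_
      rintro y rfl
      exact (Subgroup.mem_centralizer_iff.1 hb' x hx).symm
    exact hle ha
  exact (Subgroup.mem_centralizer_iff.1 ha' b rfl).symm

/-- if `u` and `v` do not commute and `u`, `v`, `g` generate a residually free group for every `g`,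
there is such a subshift -/
theorem residually_free_triples {Γ : Type} [Group Γ] [Countable Γ] (u v : Γ)
    (huv : u * v ≠ v * u)
    (hr : ∀ g : Γ, ResiduallyFree (Subgroup.closure ({u, v, g} : Set Γ))) : HasSubshift Γ := by
  have hφ := res_free u v huv (hr u)
  by_contra hcon
  have hce : IsCounterexample Γ := ⟨inferInstance, ⟨_, hφ⟩, hcon⟩
  have hno : ¬ TwoPairs Γ := by
    rintro ⟨p, q, r, s, h1, h2, h3, h4, h5, h6⟩
    have h7 : ∀ a ∈ (FreeGroup.lift ![p, q] : F2 →* Γ).range,
        ∀ b ∈ (FreeGroup.lift ![r, s] : F2 →* Γ).range, a * b = b * a := by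
      rw [w13_range, w13_range]
      exact commuting_closures p q r s h3 h4 h5 h6
    rcases commuting hce _ _ h7 with h | h
    · exact not_mean_range _ h1 h
    · exact not_mean_range _ h2 h
  have hco : CoAmenable (Subgroup.closure ({u, v} : Set Γ)) := by
    rw [← w13_range]
    exact coamenable_of_contains hce _ ⟨(FreeGroup.lift ![u, v] : F2 →* Γ).rangeRestrict,
      fun x y hxy => hφ (congrArg Subtype.val hxy)⟩
  have hBfree : IsFreeGroup (Subgroup.closure ({u, v} : Set Γ)) := by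
    rw [← w13_range]
    exact IsFreeGroup.ofMulEquiv (MonoidHom.ofInjective hφ)
  have hBna : ¬ HasMean (Subgroup.closure ({u, v} : Set Γ))
      (Subgroup.closure ({u, v} : Set Γ)) := by
    rw [← w13_range]
    exact not_mean_range _ hφ
  obtain ⟨Z, hZdef⟩ : ∃ Z : Subgroup Γ,
      Z = Subgroup.centralizer (Subgroup.closure ({u, v} : Set Γ) : Set Γ) := ⟨_, rfl⟩
  have hZ : ∀ z ∈ Z, ∀ b ∈ Subgroup.closure ({u, v} : Set Γ), z * b = b * z := by
    intro z hz b hb
    rw [hZdef] at hz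
    exact (Subgroup.mem_centralizer_iff.1 hz b hb).symm
  have hZmem : ∀ z : Γ, z * u = u * z → z * v = v * z → z ∈ Z := by
    intro z h1 h2
    rw [hZdef]
    refine Subgroup.mem_centralizer_iff.2 fun b hb => ?_
    have h3 := commuting_closures u v z z h1.symm h1.symm h2.symm h2.symm b hb z
      (Subgroup.subset_closure (by simp))
    exact h3
  have hall := w13_top (Subgroup.closure ({u, v} : Set Γ)) Z hBfree hBna hZ (by
    intro g a b ha hb hab hag hbg
    rcases res_three u v g (hr g) a b hab ha hb hag hbg with ⟨β, hβ, h1, h2⟩ | h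
    · exact ⟨g * β⁻¹, hZmem _ h1 h2, β, hβ, by group⟩
    · exact absurd h hno) hco
  have hN : Z.Normal := by
    refine ⟨fun z hz g => ?_⟩
    obtain ⟨z', hz', β, hβ, rfl⟩ := hall g
    have h1 : z' * β * z * (z' * β)⁻¹ = z' * z * z'⁻¹ := by
      have h2 := hZ z hz β hβ
      calc z' * β * z * (z' * β)⁻¹ = z' * (β * z) * β⁻¹ * z'⁻¹ := by group
        _ = z' * (z * β) * β⁻¹ * z'⁻¹ := by rw [h2]
        _ = z' * z * z'⁻¹ := by group
    rw [h1]
    exact mul_mem (mul_mem hz' hz) (inv_mem hz')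
  have hinj : Function.Injective
      ((QuotientGroup.mk' Z).comp (FreeGroup.lift ![u, v] : F2 →* Γ)) := by
    rw [injective_iff_map_eq_one]
    intro w hw
    have h1 : (FreeGroup.lift ![u, v] : F2 →* Γ) w ∈ Z := by
      rw [← QuotientGroup.eq_one_iff]
      exact hw
    refine n1_center 0 1 (by decide : (0 : Fin 2) ≠ 1) w fun x => ?_
    apply hφ
    rw [map_mul, map_mul]
    have h2 : (FreeGroup.lift ![u, v] : F2 →* Γ) x ∈ Subgroup.closure ({u, v} : Set Γ) := by
      rw [← w13_range]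
      exact ⟨x, rfl⟩
    exact (hZ _ h1 _ h2).symm
  have hcQ : Countable (Γ ⧸ Z) := (QuotientGroup.mk'_surjective Z).countable
  rcases normal_dichotomy hce Z with ⟨-, hq⟩ | ⟨-, hq⟩
  · have hsurj : Function.Surjective
        ((QuotientGroup.mk' Z).comp (FreeGroup.lift ![u, v] : F2 →* Γ)) := by
      intro y
      obtain ⟨h, rfl⟩ := QuotientGroup.mk'_surjective Z y
      obtain ⟨z, hz, β, hβ, rfl⟩ := hall h
      rw [← w13_range] at hβ
      obtain ⟨w, rfl⟩ := hβ
      refine ⟨w, ?_⟩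
      rw [MonoidHom.comp_apply, map_mul]
      have h1 : QuotientGroup.mk' Z z = 1 := (QuotientGroup.eq_one_iff z).2 hz
      rw [h1, one_mul]
    have h4 : IsFreeGroup (Γ ⧸ Z) := IsFreeGroup.ofMulEquiv (MulEquiv.ofBijective _ ⟨hinj, hsurj⟩)
    refine hq.2.2 (free_hasSubshift h4
      ⟨((QuotientGroup.mk' Z).comp (FreeGroup.lift ![u, v] : F2 →* Γ)) (FreeGroup.of 0),
        ((QuotientGroup.mk' Z).comp (FreeGroup.lift ![u, v] : F2 →* Γ)) (FreeGroup.of 1),
        fun h => ?_⟩)
    rw [← map_mul, ← map_mul] at h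
    have h5 := hinj h
    revert h5
    decide
  · exact w10_not_mean _ hinj hq

theorem result :
    (∀ (Γ : Type) [Group Γ] [Countable Γ], ContainsF2 Γ →
      (HasSubshift Γ ↔ ∃ M : Subgroup Γ, ¬ IsAmenable M ∧ ¬ CoAmenable M)) ∧
    (∀ (Γ : Type) [Group Γ] (Δ : Subgroup Γ), Δ.FiniteIndex →
      (IsCounterexample Δ ↔ IsCounterexample Γ)) ∧
    (∀ (Γ : Type) [Group Γ] [Countable Γ] (L : Subgroup Γ), CoAmenable L →
      IsCounterexample L → IsCounterexample Γ) ∧
    (∀ (Γ : Type) [Group Γ] (G : ℕ → Subgroup Γ), Monotone G → (∀ g, ∃ n, g ∈ G n) →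
      (∀ n, IsCounterexample (G n)) → IsCounterexample Γ) ∧
    (∀ (Γ : Type) [Group Γ] (N : Subgroup Γ) [N.Normal], IsCounterexample Γ →
      (IsAmenable N ∧ IsCounterexample (Γ ⧸ N)) ∨ (ContainsF2 N ∧ IsAmenable (Γ ⧸ N))) ∧
    (∀ (Γ : Type) [Group Γ] (A B : Subgroup Γ), IsCounterexample Γ →
      (∀ a ∈ A, ∀ b ∈ B, a * b = b * a) → IsAmenable A ∨ IsAmenable B) ∧
    (∀ (Γ : Type) [Group Γ] (B : Subgroup Γ) (k : ℕ) (A : Fin k → Subgroup Γ),
      IsCounterexample Γ → ¬ IsAmenable B → (∀ i, ¬ IsAmenable (A i)) →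
      {x : Γ ⧸ B | ∀ i, ¬ IsAmenable (A i ⊓ MulAction.stabilizer Γ x : Subgroup Γ)}.Nonempty ∧
      (¬ B.FiniteIndex → {x : Γ ⧸ B | ∀ i,
        ¬ IsAmenable (A i ⊓ MulAction.stabilizer Γ x : Subgroup Γ)}.Infinite)) ∧
    ((∃ (Γ : Type) (_ : Group Γ), IsCounterexample Γ) ↔
      ∃ (Γ : Type) (_ : Group Γ), IsCounterexample Γ ∧ IsReduced Γ) ∧
    (∀ (Γ : Type) [Group Γ] [Countable Γ] (u v : Γ), u * v ≠ v * u →
      (∀ g : Γ, ResiduallyFree (Subgroup.closure ({u, v, g} : Set Γ))) → HasSubshift Γ) := by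
  refine ⟨fun Γ _ _ h => criterion h, fun Γ _ Δ h => finiteIndex_iff Δ h,
    fun Γ _ _ L h h' => coamenable_overgroup L h h',
    fun Γ _ G h h' h'' => increasing_union G h h' h'',
    fun Γ _ N _ h => normal_dichotomy h N,
    fun Γ _ A B h h' => commuting h A B h',
    fun Γ _ B k A h hB hA => intersections h B hB k A hA, ⟨?_, ?_⟩,
    fun Γ _ _ u v h h' => residually_free_triples u v h h'⟩
  · rintro ⟨Γ, _, h⟩
    exact reduction h
  · rintro ⟨Γ, i, h, -⟩
    exact ⟨Γ, i, h⟩

end Pool.Agent.Results.MP_35fb4b_lc.SubgroupDichotomy
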